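import Pool.Agent.W169.HF.DefsNF3

/-!
# Project HF: general analytic data of a weight two newform
-/

set_option autoImplicit false

open Complex UpperHalfPlane MatrixGroups CongruenceSubgroup Filter Topology
open scoped ComplexConjugate

namespace Pool.Agent.W930.HFNF3

open Pool.Agent.W169.HF

lemma conj_natCast_cpow {N : ℕ} (hN : N ≠ 0) (z : ℂ) :
    conj ((N : ℂ) ^ z) = (N : ℂ) ^ (conj z) := by
  have h : (N : ℂ) ≠ 0 := by exact_mod_cast hN
  rw [cpow_def_of_ne_zero h, cpow_def_of_ne_zero h, ← Complex.exp_conj, map_mul,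
    ← Complex.natCast_log, Complex.conj_ofReal]

lemma base_pow {N : ℕ} (hN : N ≠ 0) (z : ℂ) :
    (N : ℂ) ^ (-(z / 2)) * ((Real.sqrt N / (2 * Real.pi) : ℝ) : ℂ) ^ z =
      (2 * Real.pi : ℂ) ^ (-z) := by
  have hN0 : (0 : ℝ) < N := by exact_mod_cast Nat.pos_of_ne_zero hN
  have h : (N : ℂ) ≠ 0 := by exact_mod_cast hN
  have hs : 0 < Real.sqrt N := Real.sqrt_pos.mpr hN0
  have hp : (0 : ℝ) < 2 * Real.pi := by positivity
  have h2 : ((Real.sqrt N / (2 * Real.pi) : ℝ) : ℂ) ≠ 0 := by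
    have : (0 : ℝ) < Real.sqrt N / (2 * Real.pi) := by positivity
    exact_mod_cast this.ne'
  have h3 : (2 * Real.pi : ℂ) = ((2 * Real.pi : ℝ) : ℂ) := by push_cast; ring
  have h4 : ((2 * Real.pi : ℝ) : ℂ) ≠ 0 := by exact_mod_cast hp.ne'
  rw [h3, cpow_def_of_ne_zero h, cpow_def_of_ne_zero h2, cpow_def_of_ne_zero h4, ← Complex.exp_add,
    ← Complex.natCast_log, ← Complex.ofReal_log (by positivity), ← Complex.ofReal_log hp.le,
    Real.log_div hs.ne' hp.ne', Real.log_sqrt hN0.le]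
  congr 1
  push_cast
  ring

section

variable {N : ℕ} {f : CuspForm (Gamma0 N : Subgroup (GL (Fin 2) ℝ)) 2}

lemma term_succ (s : ℂ) (n : ℕ) :
    LSeries.term (coef f) s (n + 1) = coef f (n + 1) * ((n + 1 : ℕ) : ℂ) ^ (-s) := by
  rw [LSeries.term_of_ne_zero (Nat.succ_ne_zero n), Complex.cpow_neg, div_eq_mul_inv]

lemma summable_L (h : ∀ s : ℂ, 1 < s.re →
    Summable (fun n : ℕ => ‖coef f (n + 1) * ((n + 1 : ℕ) : ℂ) ^ (-(s + 1 / 2))‖))
    {z : ℂ} (hz : 3 / 2 < z.re) : LSeriesSummable (coef f) z := by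
  unfold LSeriesSummable
  rw [← summable_nat_add_iff 1]
  have h1 := h (z - 1 / 2) (by simp; linarith)
  refine Summable.of_norm ?_
  refine h1.congr fun n => ?_
  rw [term_succ]
  congr 3
  ring

lemma tsum_L (h : ∀ s : ℂ, 1 < s.re →
    Summable (fun n : ℕ => ‖coef f (n + 1) * ((n + 1 : ℕ) : ℂ) ^ (-(s + 1 / 2))‖))
    {z : ℂ} (hz : 3 / 2 < z.re) :
    ∑' n : ℕ, coef f (n + 1) * ((n + 1 : ℕ) : ℂ) ^ (-z) = LSeries (coef f) z := by
  unfold LSeries
  rw [(summable_L h hz).tsum_eq_zero_add, LSeries.term_zero, zero_add]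
  simp_rw [term_succ]

lemma diff_L (h : ∀ s : ℂ, 1 < s.re →
    Summable (fun n : ℕ => ‖coef f (n + 1) * ((n + 1 : ℕ) : ℂ) ^ (-(s + 1 / 2))‖))
    {z : ℂ} (hz : 3 / 2 < z.re) : DifferentiableAt ℂ (LSeries (coef f)) z := by
  have h1 : LSeries.abscissaOfAbsConv (coef f) ≤ ((3 / 2 : ℝ) : EReal) :=
    LSeries.abscissaOfAbsConv_le_of_forall_lt_LSeriesSummable fun y hy =>
      summable_L h (by simpa using hy)
  have h2 : LSeries.abscissaOfAbsConv (coef f) < z.re :=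
    lt_of_le_of_lt h1 (by exact_mod_cast hz)
  exact (LSeries_hasDerivAt h2).differentiableAt

/-- the completed L-function on `Re z > 3/2` -/
lemma completed_ext (hN : N ≠ 0) {Λ : ℂ → ℂ} (hc : IsCompleted f Λ) (h : ∀ s : ℂ, 1 < s.re →
    Summable (fun n : ℕ => ‖coef f (n + 1) * ((n + 1 : ℕ) : ℂ) ^ (-(s + 1 / 2))‖))
    {z : ℂ} (hz : 3 / 2 < z.re) :
    Λ z = ((Real.sqrt N / (2 * Real.pi) : ℝ) : ℂ) ^ z * Complex.Gamma z *
      LSeries (coef f) z := by
  have hN0 : (0 : ℝ) < N := by exact_mod_cast Nat.pos_of_ne_zero hN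
  have h2 : ((Real.sqrt N / (2 * Real.pi) : ℝ) : ℂ) ≠ 0 := by
    have : (0 : ℝ) < Real.sqrt N / (2 * Real.pi) := by positivity
    exact_mod_cast this.ne'
  set U : Set ℂ := {z | 3 / 2 < z.re} with hU
  have hUo : IsOpen U := isOpen_lt continuous_const Complex.continuous_re
  have hUc : IsPreconnected U := (convex_halfSpace_re_gt (3 / 2)).isPreconnected
  have ha : AnalyticOnNhd ℂ Λ U := (hc.1.differentiableOn).analyticOnNhd hUo
  have hb : AnalyticOnNhd ℂ (fun z => ((Real.sqrt N / (2 * Real.pi) : ℝ) : ℂ) ^ z *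
      Complex.Gamma z * LSeries (coef f) z) U := by
    refine DifferentiableOn.analyticOnNhd (fun z hz => ?_) hUo
    refine DifferentiableAt.differentiableWithinAt ?_
    refine DifferentiableAt.mul (DifferentiableAt.mul ?_ ?_) (diff_L h hz)
    · exact DifferentiableAt.const_cpow differentiableAt_id (Or.inl h2)
    · refine Complex.differentiableAt_Gamma z fun m hm => ?_
      have h3 : z.re = -(m : ℝ) := by rw [hm]; simp
      have h4 : (0 : ℝ) ≤ m := Nat.cast_nonneg m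
      rw [hU, Set.mem_ofPred_eq] at hz
      linarith
  have h3 : (3 : ℂ) ∈ U := by
    rw [hU, Set.mem_ofPred_eq]
    norm_num
  refine ha.eqOn_of_preconnected_of_eventuallyEq hb hUc h3 ?_ hz
  have h4 : {z : ℂ | 2 < z.re} ∈ 𝓝 (3 : ℂ) :=
    (isOpen_lt continuous_const Complex.continuous_re).mem_nhds (by norm_num)
  filter_upwards [h4] with z hz2
  rw [hc.2 z hz2, tsum_L h (by linarith)]

end

theorem nf3_of (h : S_NF2) : S_NF3 := by
  intro N _ f w hf Λ hc hfe hreal hbd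
  have hN : N ≠ 0 := NeZero.ne N
  have hN0 : (0 : ℝ) < N := by exact_mod_cast Nat.pos_of_ne_zero hN
  have hN1 : (1 : ℝ) ≤ N := by exact_mod_cast Nat.one_le_iff_ne_zero.mpr hN
  have hNc : (N : ℂ) ≠ 0 := by exact_mod_cast hN
  obtain ⟨α, hα, hs, he⟩ := h N f w hf
  have hw2 : (w : ℂ) * w = 1 := by
    rcases hf.sign with h1 | h1 <;> rw [h1] <;> norm_num
  refine ⟨α, hN1, ?_, ?_, ?_, ?_, ?_, ?_, ?_⟩
  · intro j
    fin_cases j <;> norm_num
  · intro j p hp
    rw [Real.rpow_zero]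
    exact hα j p hp
  · rcases hf.sign with h1 | h1 <;> rw [h1] <;> simp
  · refine Differentiable.mul (Differentiable.mul (differentiable_const _) ?_) ?_
    · intro s
      exact DifferentiableAt.const_cpow (by fun_prop) (Or.inl hNc)
    · exact hc.1.comp (by fun_prop)
  · intro s hs1
    have hs1' : 1 < s.re := by linarith
    have hz : 3 / 2 < (s + 1 / 2).re := by simp; linarith
    have h1 := completed_ext hN hc hs hz
    have h2 := he s hs1'
    rw [tsum_L hs hz] at h2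
    rw [h1, h2, Fin.prod_univ_two]
    simp only [Matrix.cons_val_zero, Matrix.cons_val_one]
    have e1 : s - (-1 / 2 : ℂ) = s + 1 / 2 := by ring
    have e2 : s - (-3 / 2 : ℂ) = s + 1 / 2 + 1 := by ring
    rw [e1, e2, Complex.Gammaℝ_mul_Gammaℝ_add_one, Complex.Gammaℂ_def]
    have h3 := base_pow hN (s + 1 / 2)
    rw [← h3]
    ring
  · intro s
    have e1 : (1 - conj s + 1 / 2 : ℂ) = conj (3 / 2 - s) := by
      simp only [map_sub, map_div₀, Complex.conj_ofNat]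
      ring
    have h1 : Λ (3 / 2 - s) = w * Λ (s + 1 / 2) := by
      rw [← hfe]
      congr 1
      ring
    have e2 : conj (2 * (N : ℂ) ^ (-((1 - conj s + 1 / 2) / 2)) * Λ (1 - conj s + 1 / 2)) =
        2 * (N : ℂ) ^ (-((3 / 2 - s) / 2)) * (w * Λ (s + 1 / 2)) := by
      rw [e1, map_mul, map_mul, conj_natCast_cpow hN, ← hreal, Complex.conj_conj, h1,
        Complex.conj_ofNat, map_neg, map_div₀, Complex.conj_conj, Complex.conj_ofNat]
    rw [e2]
    have e3 : (N : ℂ) ^ (1 / 2 - s) * (N : ℂ) ^ (-((3 / 2 - s) / 2)) =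
        (N : ℂ) ^ (-((s + 1 / 2) / 2)) := by
      rw [← Complex.cpow_add _ _ hNc]
      congr 1
      ring
    have e4 : (w : ℂ) * ((N : ℕ) : ℂ) ^ (1 / 2 - s) *
        (2 * (N : ℂ) ^ (-((3 / 2 - s) / 2)) * (w * Λ (s + 1 / 2))) =
        (w * w) * (2 * ((N : ℂ) ^ (1 / 2 - s) * (N : ℂ) ^ (-((3 / 2 - s) / 2))) *
          Λ (s + 1 / 2)) := by ring
    rw [Complex.ofReal_natCast, e4, e3, hw2, one_mul]
  · intro a b
    obtain ⟨M, hM⟩ := hbd (a + 1 / 2) (b + 1 / 2)
    set B : ℝ := max (2 * (N : ℝ) ^ (-((a + 1 / 2) / 2)) * |M|) 1 with hB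
    have hB1 : 1 ≤ B := le_max_right _ _
    have hlog : 0 ≤ Real.log B := Real.log_nonneg hB1
    refine ⟨Real.log B, fun s ha hb => ?_⟩
    have h1 : ‖Λ (s + 1 / 2)‖ ≤ |M| := by
      refine (hM _ ?_ ?_).trans (le_abs_self M)
      · simp; linarith
      · simp; linarith
    have h2 : ‖(N : ℂ) ^ (-((s + 1 / 2) / 2))‖ ≤ (N : ℝ) ^ (-((a + 1 / 2) / 2)) := by
      rw [← Complex.ofReal_natCast, Complex.norm_cpow_eq_rpow_re_of_pos hN0]
      apply Real.rpow_le_rpow_of_exponent_le hN1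
      have : (-((s + 1 / 2) / 2) : ℂ).re = -((s.re + 1 / 2) / 2) := by
        rw [Complex.neg_re, show ((s + 1 / 2) / 2 : ℂ) = (s + 1 / 2) / ((2 : ℝ) : ℂ) by
          push_cast; ring, Complex.div_ofReal_re]
        simp
      rw [this]
      linarith
    calc ‖2 * (N : ℂ) ^ (-((s + 1 / 2) / 2)) * Λ (s + 1 / 2)‖
        = 2 * ‖(N : ℂ) ^ (-((s + 1 / 2) / 2))‖ * ‖Λ (s + 1 / 2)‖ := by
          rw [norm_mul, norm_mul]
          simp
      _ ≤ 2 * (N : ℝ) ^ (-((a + 1 / 2) / 2)) * |M| := by gcongr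
      _ ≤ B := le_max_left _ _
      _ = Real.exp (Real.log B) := by rw [Real.exp_log (by linarith)]
      _ ≤ Real.exp (Real.log B * (1 + |s.im|)) := by
          apply Real.exp_le_exp.mpr
          nlinarith [abs_nonneg s.im]

end Pool.Agent.W930.HFNF3
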